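import Mathlib
import Pool.Agent.R287.KPe

/-!
# The kernel problem: a reflexive space answering negatively whose dual answers positively

For `𝕜 = ℝ` and `𝕜 = ℂ` there is a reflexive Banach space `X` which answers the kernel problem
negatively while its dual `X*` answers it positively.

The space is `X = ℓ_4(Γ × ℕ) ∩ ℓ_2(Γ × ℕ, w)` with `w (γ, n) = 4 ^ (-n)` and `Γ` uncountable.
-/

set_option autoImplicit false

namespace Pool.Agent.Results.MP_ad4c49_an.ReflexiveNegativeDualPositive

/-- `X` answers the kernel problem positively: every closed subspace of `X` is the kernel of a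
bounded operator `X → X`. -/
def AnswersPositively (𝕜 X : Type) [RCLike 𝕜] [NormedAddCommGroup X] [NormedSpace 𝕜 X] : Prop :=
  ∀ Y : Submodule 𝕜 X, IsClosed (Y : Set X) →
    ∃ T : X →L[𝕜] X, LinearMap.ker (T : X →ₗ[𝕜] X) = Y

/-- `X` answers the kernel problem negatively: some closed subspace of `X` is not the kernel of
any bounded operator `X → X`. -/
def AnswersNegatively (𝕜 X : Type) [RCLike 𝕜] [NormedAddCommGroup X] [NormedSpace 𝕜 X] : Prop :=
  ∃ Y : Submodule 𝕜 X, IsClosed (Y : Set X) ∧
    ∀ T : X →L[𝕜] X, LinearMap.ker (T : X →ₗ[𝕜] X) ≠ Y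

/-- `X` is reflexive: the canonical map into the bidual is onto. -/
def IsReflexiveSpace (𝕜 X : Type) [RCLike 𝕜] [NormedAddCommGroup X] [NormedSpace 𝕜 X] : Prop :=
  Function.Surjective (NormedSpace.inclusionInDoubleDual 𝕜 X)

/-- There is a reflexive Banach space (over `ℝ` and over `ℂ`) which answers the kernel problem
negatively while its dual answers it positively. -/
theorem result (𝕜 : Type) [RCLike 𝕜] :
    ∃ (X : Type) (_ : NormedAddCommGroup X) (_ : NormedSpace 𝕜 X) (_ : CompleteSpace X),
      IsReflexiveSpace 𝕜 X ∧ AnswersNegatively 𝕜 X ∧ AnswersPositively 𝕜 (StrongDual 𝕜 X) :=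
  ⟨R287.KP.kX ℝ 𝕜, inferInstance, inferInstance, inferInstance,
    (R287.KP.kData ℝ 𝕜).reflexive, (R287.KP.kData ℝ 𝕜).negative,
    R287.KP.dual_positive (R287.KP.kData ℝ 𝕜)⟩

end Pool.Agent.Results.MP_ad4c49_an.ReflexiveNegativeDualPositive
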